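import Pool.Agent.Helper93.ZF.Factorial

set_option autoImplicit false

/-!
# Consistency with ZF of a set `A` with `Sym(A)` and `[A]^3` in bijection

Full affirmative answer to Q1 of MP_7d095a_lc.

`ZFModel E` says that the structure `(M, E)` satisfies all the axioms of ZF (with the separation
and replacement schemes for all first order formulas `Fml` with parameters, `Sat` being Tarski
satisfaction); see `Pool.Agent.Helper93.ZF.Formula`.  `IsBij E f A B` says that in `(M, E)` the
set `f` is a bijection from `A` onto `B` (a set of Kuratowski pairs), and `IsThreeSubset E t A`
that in `(M, E)` the set `t` is a subset of `A` with exactly three elements; see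
`Pool.Agent.Helper93.ZF.SetDefs`.
-/

namespace Pool.Agent.Results.MP_7d095a_lc.FactorialTriples

open Pool.Agent.Helper93.ZF

/-- There is a (countable, well-founded) model `(M, E)` of ZF with elements `A`, `S`, `T`, `F` such
that, in the model, `S` is the set of all bijections from `A` to `A`, `T` is the set of all
three-element subsets of `A`, and `F` is a bijection from `S` onto `T`. -/
theorem result : ∃ (M : Type) (E : M → M → Prop), ZFModel E ∧ WellFounded E ∧ Countable M ∧
    ∃ A S T F : M, (∀ g, E g S ↔ IsBij E g A A) ∧ (∀ t, E t T ↔ IsThreeSubset E t A) ∧
      IsBij E F S T :=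
  factorial_model

end Pool.Agent.Results.MP_7d095a_lc.FactorialTriples
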